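import Pool.Agent.N343.TC.Stm

/-! Calculus of the predicate `Sm` and the first remainder (project TC, MP_8dfb46_an). -/

set_option autoImplicit false
set_option linter.unusedSectionVars false

open Filter Topology

namespace Pool.Agent.N650.TC

open Pool.Agent.N343.TC

section
variable {B : Type} [NormedCommRing B] [NormedAlgebra ℂ B]

theorem Sm_add {m : ℕ} {f g : ℕ → B → B} (hf : Sm m f) (hg : Sm m g) :
    Sm m (fun k W => f k W + g k W) := by
  obtain ⟨C, hC, h⟩ := hf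
  obtain ⟨D, hD, h'⟩ := hg
  refine ⟨C + D, by positivity, fun k hk W W' hW hW' => ?_⟩
  obtain ⟨a, b⟩ := h k hk W W' hW hW'
  obtain ⟨c, d⟩ := h' k hk W W' hW hW'
  constructor
  · calc ‖f k W + g k W‖ ≤ ‖f k W‖ + ‖g k W‖ := norm_add_le _ _
      _ ≤ C / (k : ℝ) ^ m + D / (k : ℝ) ^ m := add_le_add a c
      _ = (C + D) / (k : ℝ) ^ m := by ring
  · calc ‖f k W + g k W - (f k W' + g k W')‖ = ‖(f k W - f k W') + (g k W - g k W')‖ := by
          congr 1; ring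
      _ ≤ ‖f k W - f k W'‖ + ‖g k W - g k W'‖ := norm_add_le _ _
      _ ≤ C / (k : ℝ) ^ m * ‖W - W'‖ + D / (k : ℝ) ^ m * ‖W - W'‖ := add_le_add b d
      _ = (C + D) / (k : ℝ) ^ m * ‖W - W'‖ := by ring

theorem Sm_neg {m : ℕ} {f : ℕ → B → B} (hf : Sm m f) : Sm m (fun k W => - f k W) := by
  obtain ⟨C, hC, h⟩ := hf
  refine ⟨C, hC, fun k hk W W' hW hW' => ?_⟩
  obtain ⟨a, b⟩ := h k hk W W' hW hW'
  constructor
  · rw [norm_neg]; exact a
  · have : -f k W - -f k W' = -(f k W - f k W') := by ring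
    rw [this, norm_neg]; exact b

theorem Sm_sub {m : ℕ} {f g : ℕ → B → B} (hf : Sm m f) (hg : Sm m g) :
    Sm m (fun k W => f k W - g k W) := by
  have := Sm_add hf (Sm_neg hg)
  simpa only [sub_eq_add_neg] using this

theorem Sm_mul {m n : ℕ} {f g : ℕ → B → B} (hf : Sm m f) (hg : Sm n g) :
    Sm (m + n) (fun k W => f k W * g k W) := by
  obtain ⟨C, hC, h⟩ := hf
  obtain ⟨D, hD, h'⟩ := hg
  refine ⟨2 * (C * D), by positivity, fun k hk W W' hW hW' => ?_⟩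
  obtain ⟨a, b⟩ := h k hk W W' hW hW'
  obtain ⟨a', -⟩ := h k hk W' W hW' hW
  obtain ⟨c, d⟩ := h' k hk W W' hW hW'
  obtain ⟨c', -⟩ := h' k hk W' W hW' hW
  have hk0 : (0 : ℝ) < k := by
    have : 0 < k := by omega
    exact_mod_cast this
  have hm : (0 : ℝ) < (k : ℝ) ^ m := by positivity
  have hn : (0 : ℝ) < (k : ℝ) ^ n := by positivity
  have e : C / (k : ℝ) ^ m * (D / (k : ℝ) ^ n) = C * D / (k : ℝ) ^ (m + n) := by
    rw [pow_add]; field_simp
  have hCD : 0 ≤ C * D / (k : ℝ) ^ (m + n) := by positivity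
  constructor
  · calc ‖f k W * g k W‖ ≤ ‖f k W‖ * ‖g k W‖ := norm_mul_le _ _
      _ ≤ C / (k : ℝ) ^ m * (D / (k : ℝ) ^ n) := by gcongr
      _ = C * D / (k : ℝ) ^ (m + n) := e
      _ ≤ C * D / (k : ℝ) ^ (m + n) + C * D / (k : ℝ) ^ (m + n) := by linarith
      _ = 2 * (C * D) / (k : ℝ) ^ (m + n) := by ring
  · calc ‖f k W * g k W - f k W' * g k W'‖
        = ‖f k W * (g k W - g k W') + (f k W - f k W') * g k W'‖ := by congr 1; ring
      _ ≤ ‖f k W * (g k W - g k W')‖ + ‖(f k W - f k W') * g k W'‖ := norm_add_le _ _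
      _ ≤ ‖f k W‖ * ‖g k W - g k W'‖ + ‖f k W - f k W'‖ * ‖g k W'‖ :=
          add_le_add (norm_mul_le _ _) (norm_mul_le _ _)
      _ ≤ C / (k : ℝ) ^ m * (D / (k : ℝ) ^ n * ‖W - W'‖)
          + (C / (k : ℝ) ^ m * ‖W - W'‖) * (D / (k : ℝ) ^ n) := by gcongr
      _ = 2 * (C / (k : ℝ) ^ m * (D / (k : ℝ) ^ n)) * ‖W - W'‖ := by ring
      _ = 2 * (C * D) / (k : ℝ) ^ (m + n) * ‖W - W'‖ := by rw [e]; ring

theorem Sm_mono {m : ℕ} {f : ℕ → B → B} (hf : Sm (m + 1) f) : Sm m f := by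
  obtain ⟨C, hC, h⟩ := hf
  refine ⟨C, hC, fun k hk W W' hW hW' => ?_⟩
  obtain ⟨a, b⟩ := h k hk W W' hW hW'
  have hk1 : (1 : ℝ) ≤ k := by
    have : 1 ≤ k := by omega
    exact_mod_cast this
  have e : C / (k : ℝ) ^ (m + 1) ≤ C / (k : ℝ) ^ m := by
    apply div_le_div_of_nonneg_left hC (by positivity)
    exact pow_le_pow_right₀ hk1 (by omega)
  exact ⟨a.trans e, b.trans (mul_le_mul_of_nonneg_right e (norm_nonneg _))⟩

theorem Sm_mono' {m : ℕ} (n : ℕ) {f : ℕ → B → B} (hf : Sm (m + n) f) : Sm m f := by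
  induction n with
  | zero => exact hf
  | succ n ih => exact ih (Sm_mono hf)

theorem Sm_le {m n : ℕ} (h : m ≤ n) {f : ℕ → B → B} (hf : Sm n f) : Sm m f := by
  obtain ⟨d, rfl⟩ := Nat.exists_eq_add_of_le h
  exact Sm_mono' d hf

theorem Sm_const (b : B) : Sm 0 (fun (_ : ℕ) (_ : B) => b) := by
  refine ⟨‖b‖, norm_nonneg _, fun k hk W W' hW hW' => ?_⟩
  constructor
  · simp
  · simp only [sub_self, norm_zero]
    positivity

theorem Sm_zero (m : ℕ) : Sm m (fun (_ : ℕ) (_ : B) => (0 : B)) := by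
  refine ⟨0, le_refl _, fun k hk W W' hW hW' => ?_⟩
  constructor
  · simp
  · simp

theorem Sm_id : Sm 0 (fun (_ : ℕ) (W : B) => W) := by
  refine ⟨6, by norm_num, fun k hk W W' hW hW' => ?_⟩
  constructor
  · simpa using hW
  · simp only [pow_zero, div_one]
    nlinarith [norm_nonneg (W - W')]

theorem Sm_smul_seq {m n : ℕ} {f : ℕ → B → B} (hf : Sm m f) (α : ℕ → ℂ) (D : ℝ) (hD : 0 ≤ D)
    (hα : ∀ k : ℕ, 6 ≤ k → ‖α k‖ ≤ D / (k : ℝ) ^ n) :
    Sm (m + n) (fun k W => α k • f k W) := by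
  obtain ⟨C, hC, h⟩ := hf
  refine ⟨C * D, by positivity, fun k hk W W' hW hW' => ?_⟩
  obtain ⟨a, b⟩ := h k hk W W' hW hW'
  have c := hα k hk
  have hk0 : (0 : ℝ) < k := by
    have : 0 < k := by omega
    exact_mod_cast this
  have hm : (0 : ℝ) < (k : ℝ) ^ m := by positivity
  have hn : (0 : ℝ) < (k : ℝ) ^ n := by positivity
  have e : C / (k : ℝ) ^ m * (D / (k : ℝ) ^ n) = C * D / (k : ℝ) ^ (m + n) := by
    rw [pow_add]; field_simp
  constructor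
  · calc ‖α k • f k W‖ ≤ ‖α k‖ * ‖f k W‖ := norm_smul_le _ _
      _ ≤ D / (k : ℝ) ^ n * (C / (k : ℝ) ^ m) := by gcongr
      _ = C * D / (k : ℝ) ^ (m + n) := by rw [← e]; ring
  · calc ‖α k • f k W - α k • f k W'‖ = ‖α k • (f k W - f k W')‖ := by rw [smul_sub]
      _ ≤ ‖α k‖ * ‖f k W - f k W'‖ := norm_smul_le _ _
      _ ≤ D / (k : ℝ) ^ n * (C / (k : ℝ) ^ m * ‖W - W'‖) := by gcongr
      _ = C * D / (k : ℝ) ^ (m + n) * ‖W - W'‖ := by rw [← e]; ring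

/-- the real version -/
theorem Sm_smul_rseq {m n : ℕ} {f : ℕ → B → B} (hf : Sm m f) (α : ℕ → ℝ) (D : ℝ) (hD : 0 ≤ D)
    (hα : ∀ k : ℕ, 6 ≤ k → |α k| ≤ D / (k : ℝ) ^ n) :
    Sm (m + n) (fun k W => (α k : ℂ) • f k W) := by
  refine Sm_smul_seq hf (fun k => (α k : ℂ)) D hD fun k hk => ?_
  rw [Complex.norm_real, Real.norm_eq_abs]
  exact hα k hk

theorem Sm_csmul {m : ℕ} {f : ℕ → B → B} (c : ℂ) (hf : Sm m f) :
    Sm m (fun k W => c • f k W) := by
  have := Sm_smul_seq (n := 0) hf (fun _ => c) ‖c‖ (norm_nonneg _) (fun k _ => by simp)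
  simpa using this

theorem Sm_cmul {m : ℕ} {f : ℕ → B → B} (b : B) (hf : Sm m f) :
    Sm m (fun k W => b * f k W) := by
  have := Sm_mul (Sm_const b) hf
  simpa using this

theorem Sm_sq {m : ℕ} {f : ℕ → B → B} (hf : Sm m f) :
    Sm (m + m) (fun k W => (f k W) ^ 2) := by
  have := Sm_mul hf hf
  simpa only [pow_two] using this

theorem Sm_congr {m : ℕ} {f g : ℕ → B → B} (hf : Sm m f) (h : ∀ k W, g k W = f k W) :
    Sm m g := by
  have : g = f := by funext k W; exact h k W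
  rw [this]; exact hf

/-- `x = W / k²` is of order 2 -/
theorem Sm_xx : Sm 2 (fun (k : ℕ) (W : B) => xx k W) := by
  have := Sm_smul_seq (n := 2) (Sm_id (B := B)) (fun k => ((k : ℂ) ^ 2)⁻¹) 1 (by norm_num)
    (fun k hk => by simp)
  simpa [xx] using this

theorem th_err (A : WA B) (hE : Sm 1 (fun k (W : B) => (1 + xx k W) ^ k - 1)) :
    Sm 1 (fun k W => th A k W - (4 / 5 : ℂ) • A.T) := by
  refine Sm_congr (Sm_csmul (4 / 5 : ℂ) (Sm_cmul A.T hE)) fun k W => ?_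
  rw [th, mul_sub, mul_one, smul_sub]

theorem th'_err (A : WA B) (hE : Sm 1 (fun k (W : B) => (GG k W) ^ k - 1)) :
    Sm 1 (fun k W => th' A k W - (5 / 4 : ℂ) • A.S) := by
  refine Sm_congr (Sm_csmul (5 / 4 : ℂ) (Sm_cmul A.S hE)) fun k W => ?_
  rw [th', mul_sub, mul_one, smul_sub]

theorem th_Sm (A : WA B) (hE : Sm 1 (fun k (W : B) => (1 + xx k W) ^ k - 1)) :
    Sm 0 (fun k W => th A k W) := by
  refine Sm_congr (Sm_add (Sm_mono (th_err A hE)) (Sm_const ((4 / 5 : ℂ) • A.T))) fun k W => ?_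
  rw [sub_add_cancel]

theorem th'_Sm (A : WA B) (hE : Sm 1 (fun k (W : B) => (GG k W) ^ k - 1)) :
    Sm 0 (fun k W => th' A k W) := by
  refine Sm_congr (Sm_add (Sm_mono (th'_err A hE)) (Sm_const ((5 / 4 : ℂ) • A.S))) fun k W => ?_
  rw [sub_add_cancel]

end

theorem main (hP : S_POW) (hS : S_SEQ) : S_REM1 := by
  intro B _ _ _ A
  obtain ⟨hE, hE', -⟩ := hP B A.one_norm
  obtain ⟨C, hC, hs⟩ := hS
  have t0 := th_Sm A hE
  have t0' := th'_Sm A hE'
  have t1 := th_err A hE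
  have t1' := th'_err A hE'
  have a1 := Sm_smul_rseq (n := 1) (Sm_sq t0) (fun k => (k : ℝ) * ((cc k) ^ 2 / 4)) C hC
    (fun k hk => by rw [pow_one]; exact (hs k hk).2.2.1)
  have a2 := Sm_smul_rseq (n := 1) t0
    (fun k => (k : ℝ) * (cc k + aa k * (cc k) ^ 2 / 2 - qq k * cc k) - 3 / 8) C hC
    (fun k hk => by rw [pow_one]; exact (hs k hk).2.2.2.1)
  have a3 := Sm_smul_rseq (n := 1) t0'
    (fun k => (k : ℝ) * (aa k / 2 + bb k * cc k - qq k * cc k) + 3 / 8) C hC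
    (fun k hk => by rw [pow_one]; exact (hs k hk).2.2.2.2.1)
  have a4 := Sm_smul_rseq (n := 1) (Sm_sq t0') (fun k => (k : ℝ) * (bb k / 4)) C hC
    (fun k hk => by rw [pow_one]; exact (hs k hk).2.2.2.2.2.1)
  have b1 := Sm_csmul (3 / 8 : ℂ) t1
  have b2 := Sm_csmul (3 / 8 : ℂ) t1'
  have key := Sm_sub (Sm_sub (Sm_add (Sm_add (Sm_add a1 a2) b1) b2) a3) a4
  refine Sm_congr (by simpa using key) fun k W => ?_
  simp only [r1, XB]
  push_cast
  module

end Pool.Agent.N650.TC
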